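import Pool.Agent.Helper70.SUB.SheetG

/-!
Project SUB, row DAV: Davenport's lemma.
-/

set_option autoImplicit false

namespace Pool.Agent.Helper45.SUB

open Finset Matrix

/-- the row permutation of an elimination step -/
def prm {N : ℕ} (r : Fin (N + 1)) (π : Equiv.Perm (Fin N)) : Equiv.Perm (Fin (N + 1)) :=
  (finSuccEquiv' r).trans ((Equiv.optionCongr π).trans (finSuccEquiv' 0).symm)

theorem prm_r {N : ℕ} (r : Fin (N + 1)) (π : Equiv.Perm (Fin N)) : prm r π r = 0 := by
  simp [prm]

theorem prm_s {N : ℕ} (r : Fin (N + 1)) (π : Equiv.Perm (Fin N)) (i : Fin N) :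
    prm r π (r.succAbove i) = (π i).succ := by
  simp [prm]

/-- triangular decomposition with pivots -/
theorem LU : ∀ (N : ℕ) (C : ℝ), 1 ≤ C → ∃ C' : ℝ, 1 ≤ C' ∧ ∀ U V : Matrix (Fin N) (Fin N) ℝ,
    (∀ i j, |U i j| ≤ C) → (∀ i j, |V i j| ≤ C) → V * U = 1 →
    ∃ (π : Equiv.Perm (Fin N)) (R : Matrix (Fin N) (Fin N) ℝ), (∀ i, R i i = 1) ∧
      (∀ i j, j < i → R i j = 0) ∧ ∀ v : Fin N → ℝ,
      (∀ i, |(U *ᵥ v) i| ≤ C' * ∑ l, if l ≤ π i then |(R *ᵥ v) l| else 0) ∧
      ∀ m, ∃ i, π i ≤ m ∧ |(R *ᵥ v) m| ≤ C' * |(U *ᵥ v) i| := by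
  intro N
  induction N with
  | zero =>
    intro C _
    exact ⟨1, le_rfl, fun U V _ _ _ => ⟨1, 1, fun i => i.elim0, fun i => i.elim0,
      fun v => ⟨fun i => i.elim0, fun i => i.elim0⟩⟩⟩
  | succ N ih =>
    intro C hC
    have C0 : 0 < C := lt_of_lt_of_le one_pos hC
    set n : ℝ := (N : ℝ) + 1 with hn
    have n1 : 1 ≤ n := by rw [hn]; linarith [Nat.cast_nonneg (α := ℝ) N]
    set C1 : ℝ := C + C * (C * (n * C)) with hC1
    have C11 : 1 ≤ C1 := by
      have : 0 ≤ C * (C * (n * C)) := by positivity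
      linarith
    obtain ⟨c, hc, H⟩ := ih C1 C11
    have c0 : 0 < c := lt_of_lt_of_le one_pos hc
    refine ⟨c * (1 + C * (n * C)) + C + n * C + c, by nlinarith [mul_pos C0 (mul_pos (lt_of_lt_of_le one_pos n1) C0)],
      fun U V hU hV hVU => ?_⟩
    -- the pivot
    obtain ⟨r, hr⟩ : ∃ r, 1 ≤ n * C * |U r 0| := by
      by_contra hcon
      push Not at hcon
      have h1 : (V * U) 0 0 = 1 := by rw [hVU, Matrix.one_apply_eq]
      rw [Matrix.mul_apply] at h1
      have h2 : |∑ j, V 0 j * U j 0| < 1 := by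
        refine lt_of_le_of_lt (Finset.abs_sum_le_sum_abs _ _) ?_
        have h3 : ∀ j ∈ (univ : Finset (Fin (N + 1))), |V 0 j * U j 0| < 1 / n := fun j _ => by
          rw [abs_mul]
          have h4 := hcon j
          rw [lt_div_iff₀ (by linarith)]
          have h5 : |V 0 j| * |U j 0| ≤ C * |U j 0| := mul_le_mul_of_nonneg_right (hV 0 j) (abs_nonneg _)
          nlinarith
        have h6 := Finset.sum_lt_sum_of_nonempty (univ_nonempty) h3
        refine lt_of_lt_of_le h6 ?_
        rw [Finset.sum_const, Finset.card_univ, Fintype.card_fin, nsmul_eq_mul]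
        push_cast
        rw [← hn, mul_one_div, div_self (by linarith)]
      rw [h1, abs_one] at h2
      exact lt_irrefl _ h2
    set α := U r 0 with hα
    have α0 : 0 < |α| := by
      by_contra h
      have : |α| = 0 := le_antisymm (not_lt.1 h) (abs_nonneg _)
      rw [this, mul_zero] at hr
      linarith
    have αne : α ≠ 0 := abs_pos.1 α0
    have αi : |α|⁻¹ ≤ n * C := by
      rw [inv_le_iff_one_le_mul₀ α0]
      exact hr
    set β : Fin N → ℝ := fun k => U r k.succ / α with hβ
    have βle : ∀ k, |β k| ≤ C * (n * C) := fun k => by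
      rw [hβ]
      show |U r k.succ / α| ≤ _
      rw [abs_div, div_eq_mul_inv]
      exact mul_le_mul (hU _ _) αi (by positivity) C0.le
    set U' : Matrix (Fin N) (Fin N) ℝ := fun i k =>
      U (r.succAbove i) k.succ - U (r.succAbove i) 0 * β k with hU'
    set V' : Matrix (Fin N) (Fin N) ℝ := fun i j => V i.succ (r.succAbove j) with hV'
    have hU1 : ∀ i j, |U' i j| ≤ C1 := fun i j => by
      refine (abs_sub _ _).trans (add_le_add (hU _ _) ?_)
      rw [abs_mul]
      exact mul_le_mul (hU _ _) (βle j) (abs_nonneg _) C0.le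
    have hV1 : ∀ i j, |V' i j| ≤ C1 := fun i j => (hV _ _).trans (by
      have : 0 ≤ C * (C * (n * C)) := by positivity
      linarith)
    have hVU1 : V' * U' = 1 := by
      ext i k
      rw [Matrix.mul_apply]
      have e1 : ∑ j, V i.succ j * (U j k.succ - U j 0 * β k) =
          (1 : Matrix (Fin (N + 1)) (Fin (N + 1)) ℝ) i.succ k.succ -
            (1 : Matrix (Fin (N + 1)) (Fin (N + 1)) ℝ) i.succ 0 * β k := by
        rw [← hVU, Matrix.mul_apply, Matrix.mul_apply, Finset.sum_mul, ← Finset.sum_sub_distrib]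
        exact Finset.sum_congr rfl fun j _ => by ring
      rw [Fin.sum_univ_succAbove _ r] at e1
      have e2 : U r k.succ - U r 0 * β k = 0 := by
        rw [hβ]
        show U r k.succ - α * (U r k.succ / α) = 0
        field_simp
        ring
      rw [e2, mul_zero, zero_add, Matrix.one_apply, Matrix.one_apply, if_neg (Fin.succ_ne_zero i),
        zero_mul, sub_zero] at e1
      rw [Matrix.one_apply]
      simp only [Fin.succ_inj] at e1
      exact e1
    obtain ⟨π, R, R1, R2, hR⟩ := H U' V' hU1 hV1 hVU1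
    -- the new matrix
    set R' : Matrix (Fin (N + 1)) (Fin (N + 1)) ℝ := fun i j =>
      Fin.cases (Fin.cases 1 (fun k => β k) j) (fun l => Fin.cases 0 (fun k => R l k) j) i with hR'
    have r00 : R' 0 0 = 1 := rfl
    have r0s : ∀ k, R' 0 (Fin.succ k) = β k := fun k => rfl
    have rs0 : ∀ l, R' (Fin.succ l) 0 = 0 := fun l => rfl
    have rss : ∀ l k, R' (Fin.succ l) (Fin.succ k) = R l k := fun l k => rfl
    refine ⟨prm r π, R', fun i => ?_, fun i j hij => ?_, fun v => ?_⟩
    · refine Fin.cases ?_ (fun i => ?_) i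
      · exact r00
      · rw [rss]
        exact R1 i
    · revert hij
      refine Fin.cases ?_ (fun i => ?_) i
      · intro h
        exact absurd h (Fin.not_lt_zero j)
      · refine Fin.cases ?_ (fun j => ?_) j
        · intro _
          exact rs0 i
        · intro h
          rw [rss]
          exact R2 i j (Fin.succ_lt_succ_iff.1 h)
    set v' : Fin N → ℝ := fun k => v k.succ with hv'
    obtain ⟨hA, hB⟩ := hR v'
    have w0 : (R' *ᵥ v) 0 = v 0 + ∑ k, β k * v' k := by
      show ∑ j, R' 0 j * v j = _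
      rw [Fin.sum_univ_succ, r00, one_mul]
      rfl
    have ws : ∀ l, (R' *ᵥ v) (Fin.succ l) = (R *ᵥ v') l := fun l => by
      show ∑ j, R' l.succ j * v j = ∑ k, R l k * v' k
      rw [Fin.sum_univ_succ, rs0, zero_mul, zero_add]
      rfl
    have ur : (U *ᵥ v) r = α * (R' *ᵥ v) 0 := by
      rw [w0]
      show ∑ j, U r j * v j = _
      rw [Fin.sum_univ_succ, mul_add, Finset.mul_sum]
      congr 1
      refine Finset.sum_congr rfl fun k _ => ?_
      show U r k.succ * v k.succ = α * (U r k.succ / α * v k.succ)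
      field_simp
    have us : ∀ i, (U *ᵥ v) (r.succAbove i) = U (r.succAbove i) 0 * (R' *ᵥ v) 0 + (U' *ᵥ v') i := by
      intro i
      rw [w0]
      show ∑ j, U (r.succAbove i) j * v j = U (r.succAbove i) 0 * (v 0 + ∑ k, β k * v' k) +
        ∑ k, U' i k * v' k
      rw [Fin.sum_univ_succ, mul_add, add_assoc, Finset.mul_sum, ← Finset.sum_add_distrib]
      congr 1
      refine Finset.sum_congr rfl fun k _ => ?_
      show U (r.succAbove i) k.succ * v k.succ = U (r.succAbove i) 0 * (β k * v k.succ) +
        (U (r.succAbove i) k.succ - U (r.succAbove i) 0 * β k) * v k.succ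
      ring
    have ck : 0 ≤ C * (n * C) := by positivity
    have wr : |(R' *ᵥ v) 0| ≤ n * C * |(U *ᵥ v) r| := by
      rw [ur, abs_mul, ← mul_assoc]
      have := mul_le_mul_of_nonneg_right hr (abs_nonneg ((R' *ᵥ v) 0))
      linarith
    refine ⟨fun i => ?_, fun m => ?_⟩
    · -- upper bounds
      have hsum : ∀ p : Fin (N + 1), (∑ l, if l ≤ p then |(R' *ᵥ v) l| else 0) =
          |(R' *ᵥ v) 0| + ∑ l : Fin N, if l.succ ≤ p then |(R *ᵥ v') l| else 0 := fun p => by
        rw [Fin.sum_univ_succ, if_pos (Fin.zero_le p)]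
        congr 1
        exact Finset.sum_congr rfl fun l _ => by rw [ws]
      have hnn : ∀ p : Fin (N + 1), 0 ≤ ∑ l : Fin N, if l.succ ≤ p then |(R *ᵥ v') l| else 0 :=
        fun p => Finset.sum_nonneg fun l _ => by
          split_ifs
          · exact abs_nonneg _
          · exact le_rfl
      rw [hsum]
      rcases eq_or_ne i r with h | h
      · subst h
        rw [ur, abs_mul]
        have h1 : |α| ≤ C := hU _ _
        have h2 := mul_le_mul_of_nonneg_right h1 (abs_nonneg ((R' *ᵥ v) 0))
        have h3 := hnn (prm i π i)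
        have h4 : 0 ≤ c * (1 + C * (n * C)) + n * C + c := by positivity
        have h5 := mul_nonneg h4 (abs_nonneg ((R' *ᵥ v) 0))
        have h6 : 0 ≤ (c * (1 + C * (n * C)) + C + n * C + c) *
            ∑ l : Fin N, if l.succ ≤ prm i π i then |(R *ᵥ v') l| else 0 :=
          mul_nonneg (by positivity) h3
        linarith
      · obtain ⟨j, rfl⟩ := Fin.exists_succAbove_eq h
        rw [us, prm_s]
        have e : (∑ l : Fin N, if l.succ ≤ (π j).succ then |(R *ᵥ v') l| else 0) =
            ∑ l : Fin N, if l ≤ π j then |(R *ᵥ v') l| else 0 :=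
          Finset.sum_congr rfl fun l _ => by simp only [Fin.succ_le_succ_iff]
        rw [e]
        have h1 : |U (r.succAbove j) 0 * (R' *ᵥ v) 0| ≤ C * |(R' *ᵥ v) 0| := by
          rw [abs_mul]
          exact mul_le_mul_of_nonneg_right (hU _ _) (abs_nonneg _)
        have h2 := hA j
        have h3 : 0 ≤ ∑ l : Fin N, if l ≤ π j then |(R *ᵥ v') l| else 0 :=
          Finset.sum_nonneg fun l _ => by
            split_ifs
            · exact abs_nonneg _
            · exact le_rfl
        have h4 := abs_add_le (U (r.succAbove j) 0 * (R' *ᵥ v) 0) ((U' *ᵥ v') j)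
        have h5 : 0 ≤ (c * (1 + C * (n * C)) + n * C + c) * |(R' *ᵥ v) 0| := by positivity
        have h6 : 0 ≤ (c * (1 + C * (n * C)) + C + n * C) *
            ∑ l : Fin N, if l ≤ π j then |(R *ᵥ v') l| else 0 := mul_nonneg (by positivity) h3
        linarith
    · -- lower bounds
      refine Fin.cases ?_ (fun m => ?_) m
      · refine ⟨r, by rw [prm_r], ?_⟩
        have h1 : 0 ≤ (c * (1 + C * (n * C)) + C + c) * |(U *ᵥ v) r| := by positivity
        linarith
      · obtain ⟨i, hi, hm⟩ := hB m
        rw [ws]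
        have h1 : |(U' *ᵥ v') i| ≤ |(U *ᵥ v) (r.succAbove i)| + C * (n * C) * |(U *ᵥ v) r| := by
          have e : (U' *ᵥ v') i = (U *ᵥ v) (r.succAbove i) - U (r.succAbove i) 0 * (R' *ᵥ v) 0 := by
            rw [us]
            ring
          rw [e]
          refine (abs_sub _ _).trans (add_le_add le_rfl ?_)
          rw [abs_mul, mul_assoc]
          exact mul_le_mul (hU _ _) wr (abs_nonneg _) C0.le
        have h2 := mul_le_mul_of_nonneg_left h1 c0.le
        rcases le_total |(U *ᵥ v) r| |(U *ᵥ v) (r.succAbove i)| with h | h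
        · refine ⟨r.succAbove i, ?_, ?_⟩
          · rw [prm_s]
            exact Fin.succ_le_succ_iff.2 hi
          · have h3 := mul_le_mul_of_nonneg_left h (mul_nonneg c0.le ck)
            have h4 : 0 ≤ (C + n * C + c) * |(U *ᵥ v) (r.succAbove i)| := by positivity
            nlinarith
        · refine ⟨r, by rw [prm_r]; exact Fin.zero_le _, ?_⟩
          have h3 := mul_le_mul_of_nonneg_left h c0.le
          have h4 : 0 ≤ (C + n * C + c) * |(U *ᵥ v) r| := by positivity
          nlinarith

/-- size reduction of a column -/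
theorem size_col {N : ℕ} (R : Matrix (Fin N) (Fin N) ℝ) (R1 : ∀ i, R i i = 1)
    (R2 : ∀ i j, j < i → R i j = 0) (k : Fin N) : ∀ j : ℕ, j ≤ k → ∃ x : Fin N → ℤ, x k = 1 ∧
      (∀ l, k < l → x l = 0) ∧
      ∀ l : Fin N, (k : ℕ) - j ≤ l → l < k → |(R *ᵥ fun i => (x i : ℝ)) l| ≤ 1
  | 0, _ => ⟨Pi.single k 1, Pi.single_eq_same _ _, fun l hl => Pi.single_eq_of_ne (ne_of_gt hl) _,
      fun l h1 h2 => by
        exfalso
        have h3 : (l : ℕ) < k := h2
        omega⟩
  | j + 1, hj => by
    obtain ⟨x, x1, x2, x3⟩ := size_col R R1 R2 k j (by omega)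
    have hl0 : (k : ℕ) - (j + 1) < N := by have := k.2; omega
    set l0 : Fin N := ⟨(k : ℕ) - (j + 1), hl0⟩ with hl0'
    set a : ℤ := round ((R *ᵥ fun i => (x i : ℝ)) l0) with ha
    have ne : l0 < k := by
      show (k : ℕ) - (j + 1) < k
      omega
    have key : ∀ l, (R *ᵥ fun i => ((x i - if i = l0 then a else 0 : ℤ) : ℝ)) l =
        (R *ᵥ fun i => (x i : ℝ)) l - R l l0 * a := by
      intro l
      show ∑ i, R l i * ((x i - if i = l0 then a else 0 : ℤ) : ℝ) = ∑ i, R l i * (x i : ℝ) - _
      have e : ∀ i, R l i * ((x i - if i = l0 then a else 0 : ℤ) : ℝ) =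
          R l i * (x i : ℝ) - (if i = l0 then R l l0 * (a : ℝ) else 0) := fun i => by
        by_cases h : i = l0
        · rw [if_pos h, if_pos h, h]
          push_cast
          ring
        · rw [if_neg h, if_neg h]
          push_cast
          ring
      rw [Finset.sum_congr rfl fun i _ => e i, Finset.sum_sub_distrib, Finset.sum_ite_eq' univ l0,
        if_pos (mem_univ _)]
    refine ⟨fun i => x i - if i = l0 then a else 0, ?_, fun l hl => ?_, fun l h1 h2 => ?_⟩
    · show x k - (if k = l0 then a else 0) = 1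
      rw [if_neg (ne_of_gt ne), sub_zero, x1]
    · show x l - (if l = l0 then a else 0) = 0
      rw [if_neg (ne_of_gt (ne.trans hl)), sub_zero, x2 l hl]
    · rw [key]
      rcases eq_or_ne l l0 with h | h
      · rw [h, R1, one_mul, ha]
        have := abs_sub_round ((R *ᵥ fun i => (x i : ℝ)) l0)
        linarith
      · have hlt : l0 < l := by
          rcases lt_trichotomy l0 l with h' | h' | h'
          · exact h'
          · exact absurd h'.symm h
          · exfalso
            have h3 : (l : ℕ) < (k : ℕ) - (j + 1) := h'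
            omega
        rw [R2 l l0 hlt, zero_mul, sub_zero]
        refine x3 l ?_ h2
        have h3 : (k : ℕ) - (j + 1) < l := hlt
        omega

theorem DAV : Pool.Agent.Helper70.SUB.ST_DAV := by
  intro N C hC
  obtain ⟨c, hc, H⟩ := LU N C hC
  have c0 : 0 < c := lt_of_lt_of_le one_pos hc
  refine ⟨c * (N + 1), by nlinarith [Nat.cast_nonneg (α := ℝ) N], ?_⟩
  intro U lam rho hdet hU hV hlam hrho mlam arho mrl
  have hVU : U⁻¹ * U = 1 := Matrix.nonsing_inv_mul U (isUnit_iff_ne_zero.2 hdet)
  obtain ⟨π, R, R1, R2, hR⟩ := H U U⁻¹ hU hV hVU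
  -- the scaled matrix
  set S : Matrix (Fin N) (Fin N) ℝ := fun i j => R i j * lam j / lam i with hS
  have S1 : ∀ i, S i i = 1 := fun i => by
    show R i i * lam i / lam i = 1
    rw [R1, one_mul, div_self (hlam i).ne']
  have S2 : ∀ i j, j < i → S i j = 0 := fun i j h => by
    show R i j * lam j / lam i = 0
    rw [R2 i j h, zero_mul, zero_div]
  choose X X1 X2 X3 using fun k : Fin N => size_col S S1 S2 k k le_rfl
  set W : Matrix (Fin N) (Fin N) ℤ := fun l k => X k l with hW
  have Wdet : W.det = 1 := by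
    have ht : W.BlockTriangular id := fun i j hij => X2 j i hij
    rw [Matrix.det_of_upperTriangular ht]
    exact Finset.prod_eq_one fun i _ => X1 i
  have hUv : ∀ (z : Fin N → ℤ) (i : Fin N), ∑ l, U i l * lam l * (z l : ℝ) =
      (U *ᵥ fun l => lam l * (z l : ℝ)) i := fun z i =>
    Finset.sum_congr rfl fun l _ => by ring
  refine ⟨π, W, by rw [Wdet]; exact isUnit_one, fun z k hk => ?_, fun i k => ?_⟩
  · -- the largest index
    obtain ⟨m, hm, hmax⟩ : ∃ m, z m ≠ 0 ∧ ∀ l, m < l → z l = 0 := by
      have hne : (univ.filter fun l => z l ≠ 0).Nonempty := ⟨k, by simp [hk]⟩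
      refine ⟨(univ.filter fun l => z l ≠ 0).max' hne, ?_, fun l hl => ?_⟩
      · have := Finset.max'_mem _ hne
        rw [Finset.mem_filter] at this
        exact this.2
      · by_contra h
        exact absurd (Finset.le_max' _ l (by simp [h])) (not_le.2 hl)
    have km : k ≤ m := by
      by_contra h
      exact hk (hmax k (not_le.1 h))
    obtain ⟨i, hi, hb⟩ := (hR fun l => lam l * (z l : ℝ)).2 m
    have e : (R *ᵥ fun l => lam l * (z l : ℝ)) m = lam m * z m := by
      show ∑ l, R m l * (lam l * (z l : ℝ)) = _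
      rw [Finset.sum_eq_single m]
      · rw [R1, one_mul]
      · intro l _ hl
        rcases lt_or_gt_of_ne hl with h | h
        · rw [R2 m l h, zero_mul]
        · rw [hmax l h, Int.cast_zero, mul_zero, mul_zero]
      · intro h
        exact absurd (mem_univ _) h
    rw [e, abs_mul, abs_of_pos (hlam m)] at hb
    have z1 : (1 : ℝ) ≤ |(z m : ℝ)| := by
      have := Int.one_le_abs hm
      exact_mod_cast this
    have hl : lam m ≤ c * |(U *ᵥ fun l => lam l * (z l : ℝ)) i| := by
      have := mul_le_mul_of_nonneg_left z1 (hlam m).le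
      linarith
    refine ⟨i, ?_⟩
    rw [hUv]
    have h1 : rho k * lam k ≤ rho m * lam m := mrl km
    have h2 : rho m ≤ rho (π i) := arho hi
    have h3 : rho m * lam m ≤ rho (π i) * (c * |(U *ᵥ fun l => lam l * (z l : ℝ)) i|) :=
      mul_le_mul h2 hl (hlam m).le (hrho _).le
    have h4 : 0 ≤ c * N * (rho (π i) * |(U *ᵥ fun l => lam l * (z l : ℝ)) i|) :=
      mul_nonneg (mul_nonneg c0.le (Nat.cast_nonneg _)) (mul_nonneg (hrho _).le (abs_nonneg _))
    nlinarith
  · rw [hUv]
    have hw : ∀ l, (R *ᵥ fun l => lam l * (W l k : ℝ)) l = lam l * (S *ᵥ fun i => (X k i : ℝ)) l := by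
      intro l
      show ∑ j, R l j * (lam j * (X k j : ℝ)) = lam l * ∑ j, R l j * lam j / lam l * (X k j : ℝ)
      rw [Finset.mul_sum]
      refine Finset.sum_congr rfl fun j _ => ?_
      have := (hlam l).ne'
      field_simp
    have hs : ∀ l, |(S *ᵥ fun i => (X k i : ℝ)) l| ≤ if l ≤ k then 1 else 0 := by
      intro l
      rcases lt_trichotomy l k with h | h | h
      · rw [if_pos h.le]
        exact X3 k l (by rw [Nat.sub_self]; exact Nat.zero_le _) h
      · rw [if_pos h.le, h]
        have e : (S *ᵥ fun i => (X k i : ℝ)) k = 1 := by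
          show ∑ j, S k j * (X k j : ℝ) = 1
          rw [Finset.sum_eq_single k]
          · rw [S1, X1, one_mul, Int.cast_one]
          · intro j _ hj
            rcases lt_or_gt_of_ne hj with h' | h'
            · rw [S2 k j h', zero_mul]
            · rw [X2 k j h', Int.cast_zero, mul_zero]
          · intro h'
            exact absurd (mem_univ _) h'
        rw [e, abs_one]
      · rw [if_neg (not_le.2 h)]
        have e : (S *ᵥ fun i => (X k i : ℝ)) l = 0 := by
          show ∑ j, S l j * (X k j : ℝ) = 0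
          refine Finset.sum_eq_zero fun j _ => ?_
          rcases lt_or_ge j l with h' | h'
          · rw [S2 l j h', zero_mul]
          · rw [X2 k j (lt_of_lt_of_le h h'), Int.cast_zero, mul_zero]
        rw [e, abs_zero]
    have h1 := (hR fun l => lam l * (W l k : ℝ)).1 i
    have h2 : rho (π i) * (c * ∑ l, if l ≤ π i then |(R *ᵥ fun l => lam l * (W l k : ℝ)) l| else 0) ≤
        c * (N * (rho k * lam k)) := by
      rw [← mul_assoc, mul_comm (rho (π i)) c, mul_assoc, Finset.mul_sum]
      refine mul_le_mul_of_nonneg_left ?_ c0.le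
      have h3 : ∀ l ∈ (univ : Finset (Fin N)), rho (π i) *
          (if l ≤ π i then |(R *ᵥ fun l => lam l * (W l k : ℝ)) l| else 0) ≤ rho k * lam k := by
        intro l _
        have h0 : 0 ≤ rho k * lam k := mul_nonneg (hrho k).le (hlam k).le
        by_cases hl : l ≤ π i
        · rw [if_pos hl, hw, abs_mul, abs_of_pos (hlam l)]
          by_cases hk : l ≤ k
          · have h4 := hs l
            rw [if_pos hk] at h4
            have h5 : lam l * |(S *ᵥ fun i => (X k i : ℝ)) l| ≤ lam l := by
              have := mul_le_mul_of_nonneg_left h4 (hlam l).le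
              linarith
            have h6 : rho (π i) ≤ rho l := arho hl
            have h7 : rho l * lam l ≤ rho k * lam k := mrl hk
            exact (mul_le_mul h6 h5 (mul_nonneg (hlam l).le (abs_nonneg _)) (hrho l).le).trans h7
          · have h4 := hs l
            rw [if_neg hk] at h4
            have h5 : |(S *ᵥ fun i => (X k i : ℝ)) l| = 0 := le_antisymm h4 (abs_nonneg _)
            rw [h5, mul_zero, mul_zero]
            exact h0
        · rw [if_neg hl, mul_zero]
          exact h0
      refine (Finset.sum_le_sum h3).trans (le_of_eq ?_)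
      rw [Finset.sum_const, Finset.card_univ, Fintype.card_fin, nsmul_eq_mul]
    have h3 := mul_le_mul_of_nonneg_left h1 (hrho (π i)).le
    have h4 : 0 ≤ c * (rho k * lam k) := mul_nonneg c0.le (mul_nonneg (hrho k).le (hlam k).le)
    calc rho (π i) * |(U *ᵥ fun l => lam l * (W l k : ℝ)) i| ≤ _ := h3
      _ ≤ c * (N * (rho k * lam k)) := h2
      _ ≤ c * (N + 1) * (rho k * lam k) := by linarith

end Pool.Agent.Helper45.SUB
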