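import Pool.Agent.Helper70.SUB.SheetA

/-!
Project SUB, row PARH: the hypotheses of Theorem G for the compound.
-/

set_option autoImplicit false

namespace Pool.Agent.Helper45.SUB

open Finset Matrix
open Pool.Agent.Helper70.SUB

/-- product over the enumeration -/
theorem prod_emb {n p : ℕ} (I : {I : Finset (Fin n) // I.card = p}) (f : Fin n → ℝ) :
    ∏ k : Fin p, f (emb I k) = ∏ i ∈ I.1, f i := by
  rw [← Finset.prod_coe_sort I.1 f, ← (I.1.orderIsoOfFin I.2).toEquiv.prod_comp]
  rfl

theorem av_prod (q : ℕ) (hq : q.Prime) {ι : Type} (s : Finset ι) (f : ι → ℚ) :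
    av (some q) (∏ i ∈ s, f i) = ∏ i ∈ s, av (some q) (f i) := by
  have := Fact.mk hq
  classical
  induction s using Finset.induction_on with
  | empty => simp [av]
  | insert a s ha ih =>
    rw [Finset.prod_insert ha, Finset.prod_insert ha, ← ih]
    simp [av]

theorem av_nonneg' (v : Option ℕ) (x : ℚ) : 0 ≤ av v x := by
  cases v with
  | none => exact abs_nonneg _
  | some q =>
    show (0 : ℝ) ≤ ((padicNorm q x : ℚ) : ℝ)
    exact_mod_cast padicNorm.nonneg x

theorem av_neg' (v : Option ℕ) (x : ℚ) : av v (-x) = av v x := by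
  cases v with
  | none => simp [av]
  | some q => simp [av]

/-- determinants at the finite places -/
theorem padic_det (hAV : ST_AV) (q : ℕ) (hq : q.Prime) {p : ℕ} (M : Matrix (Fin p) (Fin p) ℚ)
    (s : Fin p → ℝ) (hs : ∀ i, 0 ≤ s i) (hM : ∀ i k, av (some q) (M i k) ≤ s i) :
    av (some q) M.det ≤ ∏ i, s i := by
  obtain ⟨-, -, h⟩ := hAV
  obtain ⟨-, -, -, -, -, -, -, -, hsum⟩ := h {q} (by simpa using hq)
  rw [Matrix.det_apply]
  have h1 : ∀ σ : Equiv.Perm (Fin p),
      av (some q) (Equiv.Perm.sign σ • ∏ i, M (σ i) i) ≤ ∏ i, s i := by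
    intro σ
    have h2 : av (some q) (Equiv.Perm.sign σ • ∏ i, M (σ i) i) = av (some q) (∏ i, M (σ i) i) := by
      rcases Int.units_eq_one_or (Equiv.Perm.sign σ) with h | h
      · rw [h]; simp
      · rw [h]; simp [av_neg']
    rw [h2, av_prod q hq, ← Equiv.prod_comp σ s]
    exact Finset.prod_le_prod (fun i _ => av_nonneg' _ _) (fun i _ => hM _ _)
  have h3 := hsum (some q) (by simp [plc]) (Equiv.Perm (Fin p)) univ _ (∏ i, s i)
    (Finset.prod_nonneg fun i _ => hs i) (fun σ _ => h1 σ)
  simpa using h3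

/-- minors at the finite places -/
theorem padic_cmp (hAV : ST_AV) (q : ℕ) (hq : q.Prime) {n p : ℕ} (A : Matrix (Fin n) (Fin n) ℚ)
    (s : Fin n → ℝ) (hs : ∀ i, 0 ≤ s i) (hM : ∀ i k, av (some q) (A i k) ≤ s i)
    (I J : {I : Finset (Fin n) // I.card = p}) :
    av (some q) (cmp p A I J) ≤ ∏ i ∈ I.1, s i := by
  rw [← prod_emb]
  exact padic_det hAV q hq _ (fun k => s (emb I k)) (fun _ => hs _) (fun _ _ => hM _ _)

/-- a nonzero rational vector is a multiple of a primitive vector -/
theorem exists_prim {ι : Type} [Fintype ι] (x : ι → ℚ) (hx : x ≠ 0) :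
    ∃ (h : ι → ℤ) (w : ℚ), w ≠ 0 ∧ Prim h ∧ ∀ i, x i = w * h i := by
  classical
  have hD : (∏ i, ((x i).den : ℚ)) ≠ 0 :=
    Finset.prod_ne_zero_iff.mpr fun i _ => by exact_mod_cast (x i).den_ne_zero
  have hz : ∀ i, ∃ z : ℤ, (∏ i, ((x i).den : ℚ)) * x i = z := by
    intro i
    refine ⟨(∏ j ∈ univ.erase i, ((x j).den : ℤ)) * (x i).num, ?_⟩
    rw [← Finset.mul_prod_erase univ (fun i => ((x i).den : ℚ)) (mem_univ i)]
    have := Rat.mul_den_eq_num (x i)
    push_cast
    calc ((x i).den : ℚ) * (∏ j ∈ univ.erase i, ((x j).den : ℚ)) * x i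
        = (∏ j ∈ univ.erase i, ((x j).den : ℚ)) * (x i * (x i).den) := by ring
      _ = _ := by rw [this]
  choose z hz using hz
  obtain ⟨i0, hi0⟩ : ∃ i, x i ≠ 0 := by
    by_contra hcon
    push Not at hcon
    exact hx (funext hcon)
  have : Nonempty ι := ⟨i0⟩
  obtain ⟨g, hg, hg1⟩ := Finset.extract_gcd z (s := (univ : Finset ι)) univ_nonempty
  have hzi : z i0 ≠ 0 := by
    intro h0
    have := hz i0
    rw [h0] at this
    push_cast at this
    rcases mul_eq_zero.mp this with h | h
    · exact hD h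
    · exact hi0 h
  have hgz : (univ.gcd z : ℤ) ≠ 0 := by
    intro h0
    exact hzi (by rw [hg i0 (mem_univ _), h0, zero_mul])
  refine ⟨g, (univ.gcd z : ℤ) / (∏ i, ((x i).den : ℚ)), ?_, ?_, ?_⟩
  · exact div_ne_zero (by exact_mod_cast hgz) hD
  · intro d hd
    have : d ∣ univ.gcd g := Finset.dvd_gcd fun i _ => hd i
    rw [hg1] at this
    exact isUnit_of_dvd_one this
  · intro i
    have h1 := hz i
    rw [hg i (mem_univ _)] at h1
    push_cast at h1
    rw [div_mul_eq_mul_div, eq_div_iff hD, mul_comm]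
    exact h1

/-- comparison of the products over subsets of the same size -/
theorem prod_compare {n : ℕ} (lam : Fin n → ℝ) (hpos : ∀ k, 0 < lam k) (hmono : Monotone lam)
    (q : Fin n) (J U : Finset (Fin n)) (hU : ∀ l, l ∈ U ↔ q < l) (hJ : J.card = U.card) :
    ∏ k ∈ J, lam k ≤ ∏ k ∈ U, lam k := by
  have hc : (J \ U).card = (U \ J).card := by
    have h1 := Finset.card_sdiff_add_card_inter J U
    have h2 := Finset.card_sdiff_add_card_inter U J
    rw [Finset.inter_comm U J] at h2
    omega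
  have h3 : ∏ k ∈ J \ U, lam k ≤ ∏ k ∈ U \ J, lam k := by
    calc ∏ k ∈ J \ U, lam k ≤ ∏ k ∈ J \ U, lam q := by
          refine Finset.prod_le_prod (fun i _ => (hpos i).le) fun i hi => hmono ?_
          rw [Finset.mem_sdiff, hU] at hi
          exact not_lt.mp hi.2
      _ = ∏ k ∈ U \ J, lam q := by rw [Finset.prod_const, Finset.prod_const, hc]
      _ ≤ ∏ k ∈ U \ J, lam k := by
          refine Finset.prod_le_prod (fun i _ => (hpos q).le) fun i hi => hmono ?_
          rw [Finset.mem_sdiff, hU] at hi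
          exact hi.1.le
  calc ∏ k ∈ J, lam k = (∏ k ∈ J \ U, lam k) * ∏ k ∈ J ∩ U, lam k := by
        rw [← Finset.prod_union (Finset.disjoint_sdiff_inter J U), Finset.sdiff_union_inter]
    _ ≤ (∏ k ∈ U \ J, lam k) * ∏ k ∈ J ∩ U, lam k :=
        mul_le_mul_of_nonneg_right h3 (Finset.prod_nonneg fun i _ => (hpos i).le)
    _ = ∏ k ∈ U, lam k := by
        rw [Finset.inter_comm, ← Finset.prod_union (Finset.disjoint_sdiff_inter U J),
          Finset.sdiff_union_inter]

/-- products over the subsets other than the top one -/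
theorem prod_top {n q : ℕ} (hq : 1 ≤ q) (hqn : q < n) (lam : Fin n → ℝ) (hpos : ∀ k, 0 < lam k)
    (hmono : Monotone lam) (J top : {I : Finset (Fin n) // I.card = n - q})
    (htop : top.1 = univ.filter (fun l : Fin n => q ≤ (l : ℕ))) (hJ : J ≠ top) :
    ∏ k ∈ J.1, lam k ≤
      lam ⟨q - 1, by omega⟩ * ∏ l ∈ univ.filter (fun l : Fin n => q < (l : ℕ)), lam l := by
  obtain ⟨j0, hj0, hj0q⟩ : ∃ j ∈ J.1, (j : ℕ) < q := by
    by_contra hcon
    push Not at hcon
    apply hJ
    apply Subtype.ext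
    apply Finset.eq_of_subset_of_card_le
    · intro j hj
      rw [htop]
      simpa using hcon j hj
    · rw [J.2, top.2]
  have hins : top.1 = insert (⟨q, hqn⟩ : Fin n) (univ.filter (fun l : Fin n => q < (l : ℕ))) := by
    rw [htop]
    ext l
    simp only [mem_filter, mem_univ, true_and, mem_insert, Fin.ext_iff]
    omega
  have hcard : (univ.filter (fun l : Fin n => q < (l : ℕ))).card + 1 = n - q := by
    rw [← top.2, hins, Finset.card_insert_of_notMem (by simp)]
  rw [← Finset.mul_prod_erase J.1 lam hj0]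
  refine mul_le_mul (hmono ?_) ?_ (Finset.prod_nonneg fun i _ => (hpos i).le) (hpos _).le
  · rw [Fin.le_def]
    show (j0 : ℕ) ≤ q - 1
    omega
  · refine prod_compare lam hpos hmono ⟨q, hqn⟩ _ _ (fun l => ?_) ?_
    · simp [Fin.lt_def]
    · rw [Finset.card_erase_of_mem hj0, J.2]
      omega

/-- integer minors -/
theorem cmp_cast {n p : ℕ} (B : Matrix (Fin n) (Fin n) ℤ) (I J : {I : Finset (Fin n) // I.card = p}) :
    ((cmp p B I J : ℤ) : ℚ) = cmp p (mQ B) I J := by
  unfold Pool.Agent.Helper70.SUB.cmp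
  exact RingHom.map_det (Int.castRingHom ℚ) (B.submatrix (emb I) (emb J))

/-- products of compounds, enumerated -/
theorem sum_enu {n p : ℕ} (f : {I : Finset (Fin n) // I.card = p} → ℚ) :
    ∑ J, f ((enu n p).symm J) = ∑ I, f I := (enu n p).symm.sum_comp f

theorem PARH (hAV : ST_AV) (hCB : ST_CB) : ST_PARH := by
  intro n q S A C hS hA hC hq hqn
  obtain ⟨hmul, hone, htr, hinv, hbd⟩ := hCB n (n - q)
  have hAV2 := hAV.2.2 S hS
  obtain ⟨hAVpos, hAVmul, -, -, -, -, hAVpf, -, -⟩ := hAV2
  set D : ℝ := ((n - q).factorial : ℝ) * C ^ (n - q) with hD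
  have hD1 : 1 ≤ D := by
    have h1 : (1 : ℝ) ≤ ((n - q).factorial : ℝ) := by exact_mod_cast (Nat.factorial_pos _)
    have h2 : (1 : ℝ) ≤ C ^ (n - q) := one_le_pow₀ hC
    calc (1 : ℝ) = 1 * 1 := by ring
      _ ≤ D := mul_le_mul h1 h2 zero_le_one (by linarith)
  have hcard : 1 ≤ (plc S).card := Finset.card_pos.mpr ⟨none, by simp [plc]⟩
  refine ⟨D ^ (plc S).card, one_le_pow₀ hD1, ?_⟩
  intro s B lam top hs hB htop
  have hlam := hB.pos
  have hmono := hB.mono
  have hBdet : (mQ B).det ≠ 0 := by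
    have h1 := hB.det_ne
    have h2 : (mQ B).det = ((B.det : ℤ) : ℚ) := by
      exact (RingHom.map_det (Int.castRingHom ℚ) B).symm
    rw [h2]
    exact_mod_cast h1
  -- the vector h
  have hx0 : (fun I => cmp (n - q) ((mQ B)⁻¹)ᵀ I top) ≠ 0 := by
    intro h0
    have h1 : (cmp (n - q) ((mQ B)⁻¹)ᵀ).det ≠ 0 := by
      refine (hinv _ ?_).1
      rw [Matrix.det_transpose, Matrix.det_nonsing_inv]
      simpa using hBdet
    exact h1 (Matrix.det_eq_zero_of_column_eq_zero top fun I => congrFun h0 I)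
  obtain ⟨h', w, hw, hprim', hh'⟩ := exists_prim _ hx0
  refine ⟨fun I => h' ((enu n (n - q)).symm I), w, hw, ?_, ?_⟩
  · intro I
    show _ = w * (h' ((enu n (n - q)).symm (enu n (n - q) I)) : ℚ)
    rw [Equiv.symm_apply_apply]
    exact hh' I
  -- the place-wise identities
  have hcol : ∀ v, ∀ (J : {I : Finset (Fin n) // I.card = n - q}) I,
      (cmpF (n - q) (A v)).mulVec
        (cv (fun I => cmp (n - q) B ((enu n (n - q)).symm I) J)) I
      = cmp (n - q) (A v * mQ B) ((enu n (n - q)).symm I) J := by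
    intro v J I
    rw [hmul, Matrix.mul_apply, ← sum_enu]
    show ∑ K, cmpF (n - q) (A v) I K * ((cmp (n - q) B ((enu n (n - q)).symm K) J : ℤ) : ℚ) = _
    refine Finset.sum_congr rfl fun K _ => ?_
    rw [cmp_cast]
    rfl
  have hAdet : ∀ v ∈ plc S, (A v).det ≠ 0 := hA
  have hrow : ∀ v ∈ plc S, ∀ I,
      (((cmpF (n - q) (A v))⁻¹)ᵀ).mulVec (cv (fun I => h' ((enu n (n - q)).symm I))) I
      = w⁻¹ * cmp (n - q) ((A v * mQ B)⁻¹)ᵀ ((enu n (n - q)).symm I) top := by
    intro v hv I
    have h1 : ((A v * mQ B)⁻¹)ᵀ = ((A v)⁻¹)ᵀ * ((mQ B)⁻¹)ᵀ := by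
      rw [Matrix.mul_inv_rev, Matrix.transpose_mul]
    rw [h1, hmul, Matrix.mul_apply, ← sum_enu, Finset.mul_sum]
    show ∑ K, (cmpF (n - q) (A v))⁻¹ K I * ((h' ((enu n (n - q)).symm K) : ℤ) : ℚ) = _
    refine Finset.sum_congr rfl fun K _ => ?_
    have h2 : (cmpF (n - q) (A v))⁻¹ = (cmp (n - q) (A v)⁻¹).submatrix (enu n (n - q)).symm
        (enu n (n - q)).symm := by
      rw [(hinv _ (hA v hv)).2]
      exact Matrix.inv_submatrix_equiv _ _ _
    rw [h2, htr, hh']
    show cmp (n - q) (A v)⁻¹ _ _ * (h' _ : ℚ) = w⁻¹ * (cmp (n - q) (A v)⁻¹ _ _ * (w * h' _))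
    field_simp
  have hsp : ∀ v ∈ plc S, ∀ I : {I : Finset (Fin n) // I.card = n - q},
      0 < ∏ i ∈ I.1, s v i := fun v hv I => Finset.prod_pos fun i _ => hs v hv i
  have hltop : 0 < ∏ l ∈ univ.filter (fun l : Fin n => q ≤ (l : ℕ)), lam l :=
    Finset.prod_pos fun i _ => hlam i
  have hDc : D ≤ D ^ (plc S).card := by
    calc D = D ^ 1 := (pow_one D).symm
      _ ≤ _ := pow_le_pow_right₀ hD1 hcard
  refine ⟨?_, ?_, ?_, ?_, ?_, ?_⟩
  · intro d hd
    refine hprim' d fun I => ?_
    have h9 : d ∣ h' ((enu n (n - q)).symm (enu n (n - q) I)) := hd (enu n (n - q) I)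
    rwa [Equiv.symm_apply_apply] at h9
  · intro v hv I
    exact hsp v hv _
  · exact mul_pos (by positivity) (mul_pos (hlam _) (Finset.prod_pos fun i _ => hlam i))
  · exact div_pos hltop (by positivity)
  · intro y hy
    -- the orthogonality
    have h1 : ∀ J : {I : Finset (Fin n) // I.card = n - q}, J ≠ top →
        ∑ I, cmp (n - q) (mQ B) I J * y (enu n (n - q) I) = 0 := by
      intro J hJ
      have h2 := hy (fun I => cmp (n - q) B ((enu n (n - q)).symm I) J) ?_
      · rw [← sum_enu]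
        rw [← h2]
        refine Finset.sum_congr rfl fun K _ => ?_
        rw [cmp_cast, Equiv.apply_symm_apply, mul_comm]
      · intro v hv I
        rw [hcol]
        cases v with
        | none =>
          rw [if_pos rfl]
          have h3 := hbd S none (A none * mQ B) (s none) lam C hS hv (fun i => (hs none hv i).le)
            (fun i => (hlam i).le) (by linarith) hB.inf_le ((enu n (n - q)).symm I) J
          have h4 := prod_top hq hqn lam hlam hmono J top htop hJ
          refine h3.trans ?_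
          calc D * (∏ i ∈ ((enu n (n - q)).symm I).1, s none i) * ∏ k ∈ J.1, lam k
              ≤ D * (∏ i ∈ ((enu n (n - q)).symm I).1, s none i) *
                (lam ⟨q - 1, by omega⟩ *
                  ∏ l ∈ univ.filter (fun l : Fin n => q < (l : ℕ)), lam l) :=
                mul_le_mul_of_nonneg_left h4 (mul_nonneg (by linarith) (hsp none hv _).le)
            _ = D * ((lam ⟨q - 1, by omega⟩ *
                  ∏ l ∈ univ.filter (fun l : Fin n => q < (l : ℕ)), lam l) *
                  (∏ i ∈ ((enu n (n - q)).symm I).1, s none i)) := by ring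
            _ ≤ D ^ (plc S).card * ((lam ⟨q - 1, by omega⟩ *
                  ∏ l ∈ univ.filter (fun l : Fin n => q < (l : ℕ)), lam l) *
                  (∏ i ∈ ((enu n (n - q)).symm I).1, s none i)) :=
                mul_le_mul_of_nonneg_right hDc (mul_nonneg (mul_nonneg (hlam _).le
                  (Finset.prod_nonneg fun i _ => (hlam i).le)) (hsp none hv _).le)
            _ = _ := by ring
        | some r =>
          have hr : r ∈ S := by simpa [plc] using hv
          rw [if_neg (by simp), one_mul]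
          exact padic_cmp hAV r (hS r hr) _ _ (fun i => (hs _ hv i).le) (hB.fin_le r hr) _ _
    -- solve
    have h5 : ((cmp (n - q) (mQ B))ᵀ).mulVec (fun I => y (enu n (n - q) I))
        = Pi.single top (∑ I, cmp (n - q) (mQ B) I top * y (enu n (n - q) I)) := by
      funext J
      by_cases hJ : J = top
      · subst hJ
        rw [Pi.single_eq_same]
        rfl
      · rw [Pi.single_eq_of_ne hJ]
        exact h1 J hJ
    set g : ℚ := ∑ I, cmp (n - q) (mQ B) I top * y (enu n (n - q) I) with hg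
    obtain ⟨hdet, hci⟩ := hinv (mQ B) hBdet
    have h6 : (fun I => y (enu n (n - q) I)) =
        (((cmp (n - q) (mQ B))⁻¹)ᵀ).mulVec (Pi.single top g) := by
      rw [← h5, Matrix.mulVec_mulVec, ← Matrix.transpose_mul,
        Matrix.mul_nonsing_inv _ (isUnit_iff_ne_zero.mpr hdet), Matrix.transpose_one,
        Matrix.one_mulVec]
    refine ⟨g * w, fun I => ?_⟩
    have h7 := congrFun h6 ((enu n (n - q)).symm I)
    rw [Equiv.apply_symm_apply] at h7
    rw [h7, ← hci, ← htr, Matrix.mulVec_single]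
    have h8 := hh' ((enu n (n - q)).symm I)
    show cmp (n - q) ((mQ B)⁻¹)ᵀ _ top * g = _
    rw [h8]
    ring
  · have hE : ∀ v ∈ plc S, ∀ I, av v (cmp (n - q) ((A v * mQ B)⁻¹)ᵀ I top) ≤
        D * (∏ i ∈ I.1, (s v i)⁻¹) * (if v = none then ∏ k ∈ top.1, (lam k)⁻¹ else 1) := by
      intro v hv I
      cases v with
      | none =>
        rw [if_pos rfl]
        refine hbd S none ((A none * mQ B)⁻¹)ᵀ (fun i => (s none i)⁻¹) (fun k => (lam k)⁻¹) C hS hv
          (fun i => (inv_pos.mpr (hs none hv i)).le) (fun i => (inv_pos.mpr (hlam i)).le)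
          (by linarith) (fun i k => ?_) I top
        have h1 := hB.inf_inv k i
        have h2 := hs none hv i
        have h3 := hlam k
        rw [Matrix.transpose_apply, mul_assoc, ← mul_inv, ← div_eq_mul_inv,
          le_div_iff₀ (mul_pos h2 h3), mul_comm (s none i)]
        exact h1
      | some r =>
        have hr : r ∈ S := by simpa [plc] using hv
        rw [if_neg (by simp)]
        have h0 := hbd S (some r) ((A (some r) * mQ B)⁻¹)ᵀ (fun i => (s (some r) i)⁻¹)
          (fun k => 1) C hS hv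
          (fun i => (inv_pos.mpr (hs _ hv i)).le) (fun i => zero_le_one)
          (by linarith) (fun i k => ?_) I top
        · simpa using h0
        have h1 := hB.fin_inv r hr k i
        have h2 := hs _ hv i
        rw [Matrix.transpose_apply, mul_one, ← div_eq_mul_inv, le_div_iff₀ h2]
        exact h1
    refine ⟨fun v => av v w⁻¹ * (D * (if v = none then ∏ k ∈ top.1, (lam k)⁻¹ else 1)), ?_, ?_, ?_⟩
    · intro v hv
      refine mul_pos (hAVpos v hv _ (inv_ne_zero hw)) (mul_pos (by linarith) ?_)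
      split_ifs
      · exact Finset.prod_pos fun i _ => inv_pos.mpr (hlam i)
      · exact zero_lt_one
    · intro v hv I
      rw [hrow v hv, hAVmul v hv]
      have h1 := hE v hv ((enu n (n - q)).symm I)
      have h2 := hsp v hv ((enu n (n - q)).symm I)
      have h3 := (hAVpos v hv _ (inv_ne_zero hw)).le
      have h4 : (∏ i ∈ ((enu n (n - q)).symm I).1, (s v i)⁻¹) *
          ∏ i ∈ ((enu n (n - q)).symm I).1, s v i = 1 := by
        rw [Finset.prod_inv_distrib]
        exact inv_mul_cancel₀ h2.ne'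
      calc av v w⁻¹ * av v (cmp (n - q) ((A v * mQ B)⁻¹)ᵀ ((enu n (n - q)).symm I) top) *
            (∏ i ∈ ((enu n (n - q)).symm I).1, s v i)
          ≤ av v w⁻¹ * (D * (∏ i ∈ ((enu n (n - q)).symm I).1, (s v i)⁻¹) *
            (if v = none then ∏ k ∈ top.1, (lam k)⁻¹ else 1)) *
            (∏ i ∈ ((enu n (n - q)).symm I).1, s v i) :=
            mul_le_mul_of_nonneg_right (mul_le_mul_of_nonneg_left h1 h3) h2.le
        _ = av v w⁻¹ * (D * (if v = none then ∏ k ∈ top.1, (lam k)⁻¹ else 1)) *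
            ((∏ i ∈ ((enu n (n - q)).symm I).1, (s v i)⁻¹) *
              ∏ i ∈ ((enu n (n - q)).symm I).1, s v i) := by ring
        _ = _ := by rw [h4, mul_one]
    · -- the product formula
      have hBinv : ∀ r : ℕ, r.Prime → r ∉ S → ∀ i k, av (some r) ((mQ B)⁻¹ i k) ≤ 1 := by
        intro r hr hrS i k
        have := Fact.mk hr
        have h1 : (mQ B)⁻¹ i k = ((B.det : ℤ) : ℚ)⁻¹ * ((B.adjugate i k : ℤ) : ℚ) := by
          rw [Matrix.inv_def, Ring.inverse_eq_inv']
          have h2 : (mQ B).det = ((B.det : ℤ) : ℚ) :=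
            (RingHom.map_det (Int.castRingHom ℚ) B).symm
          have h3 : (mQ B).adjugate = mQ (B.adjugate) :=
            (RingHom.map_adjugate (Int.castRingHom ℚ) B).symm
          rw [h2, h3]
          rfl
        have h4 : padicNorm r ((B.det : ℤ) : ℚ) = 1 := by
          rw [padicNorm.int_eq_one_iff]
          intro h
          exact hrS (hB.det_S r hr h)
        have h5 : padicNorm r ((B.adjugate i k : ℤ) : ℚ) ≤ 1 := padicNorm.of_int _
        have h6 : padicNorm r ((mQ B)⁻¹ i k) ≤ 1 := by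
          rw [h1, padicNorm.mul, ← one_div, padicNorm.div, h4]
          simpa using h5
        show ((padicNorm r ((mQ B)⁻¹ i k) : ℚ) : ℝ) ≤ 1
        exact_mod_cast h6
      have hden : ∀ r : ℕ, r.Prime → (r : ℤ) ∣ (w.den : ℤ) → r ∈ S := by
        intro r hr hrd
        by_contra hrS
        have := Fact.mk hr
        obtain ⟨I, hI⟩ : ∃ I, ¬ (r : ℤ) ∣ h' I := by
          by_contra hcon
          push Not at hcon
          have h1 := hprim' r hcon
          rw [Int.isUnit_iff] at h1
          have h2 := hr.two_le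
          omega
        have h1 : padicNorm r ((h' I : ℤ) : ℚ) = 1 := by
          rw [padicNorm.int_eq_one_iff]
          exact hI
        have h2 : av (some r) (cmp (n - q) ((mQ B)⁻¹)ᵀ I top) ≤ ∏ i ∈ I.1, (1 : ℝ) :=
          padic_cmp hAV r hr _ (fun _ => 1) (fun _ => zero_le_one)
            (fun i k => hBinv r hr hrS k i) I top
        rw [Finset.prod_const_one] at h2
        have h3 : padicNorm r (cmp (n - q) ((mQ B)⁻¹)ᵀ I top) ≤ 1 := by
          have h4 : ((padicNorm r (cmp (n - q) ((mQ B)⁻¹)ᵀ I top) : ℚ) : ℝ) ≤ 1 := h2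
          exact_mod_cast h4
        have h5 : cmp (n - q) ((mQ B)⁻¹)ᵀ I top = w * h' I := hh' I
        rw [h5, padicNorm.mul, h1, mul_one] at h3
        have h6 : padicNorm r ((w.den : ℤ) : ℚ) < 1 := by
          rw [padicNorm.int_lt_one_iff]
          exact hrd
        have h7 : padicNorm r ((w.num : ℤ) : ℚ) = 1 := by
          rw [padicNorm.int_eq_one_iff]
          intro h8
          have h9 : r ∣ w.num.natAbs := Int.natCast_dvd.mp h8
          have h10 : r ∣ w.den := by exact_mod_cast hrd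
          have h11 := Nat.dvd_gcd h9 h10
          rw [w.reduced] at h11
          exact hr.one_lt.ne' (Nat.dvd_one.mp h11)
        have h8 : padicNorm r w * padicNorm r ((w.den : ℤ) : ℚ) = 1 := by
          rw [← padicNorm.mul, ← h7]
          congr 1
          exact_mod_cast Rat.mul_den_eq_num w
        have h9 : 0 ≤ padicNorm r w := padicNorm.nonneg _
        have h10 : 0 ≤ padicNorm r ((w.den : ℤ) : ℚ) := padicNorm.nonneg _
        nlinarith
      have hpw : ∏ v ∈ plc S, av v w⁻¹ ≤ 1 := by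
        have h1 : (∏ v ∈ plc S, av v w⁻¹) * (∏ v ∈ plc S, av v ((w.num : ℤ) : ℚ)) =
            ∏ v ∈ plc S, av v ((w.den : ℤ) : ℚ) := by
          rw [← Finset.prod_mul_distrib]
          refine Finset.prod_congr rfl fun v hv => ?_
          rw [← hAVmul v hv]
          congr 1
          have h2 := Rat.mul_den_eq_num w
          rw [← h2]
          push_cast
          field_simp
        have h2 : ∏ v ∈ plc S, av v ((w.den : ℤ) : ℚ) = 1 :=
          hAV.2.2 S hS |>.2.2.2.2.2.2.2.1 w.den (by exact_mod_cast w.den_ne_zero) hden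
        have h3 := hAVpf w.num (Rat.num_ne_zero.mpr hw)
        have h4 : 0 ≤ ∏ v ∈ plc S, av v w⁻¹ := Finset.prod_nonneg fun v _ => av_nonneg' _ _
        rw [h2] at h1
        nlinarith
      rw [Finset.prod_mul_distrib, Finset.prod_mul_distrib, Finset.prod_const,
        Finset.prod_ite_eq' (plc S) none, if_pos (by simp [plc]), one_div_div, ← htop,
        Finset.prod_inv_distrib]
      rw [← htop] at hltop
      calc (∏ v ∈ plc S, av v w⁻¹) * (D ^ (plc S).card * (∏ k ∈ top.1, lam k)⁻¹)
          ≤ 1 * (D ^ (plc S).card * (∏ k ∈ top.1, lam k)⁻¹) :=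
            mul_le_mul_of_nonneg_right hpw (by positivity)
        _ = _ := by rw [one_mul, div_eq_mul_inv]

end Pool.Agent.Helper45.SUB
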