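import Pool.Agent.Helper70.SUB.SheetA

/-!
Project SUB, row PAR: the parametric Subspace theorem.
-/

set_option autoImplicit false

namespace Pool.Agent.Helper45.SUB

open Finset Matrix
open Pool.Agent.Helper70.SUB

/-- large members of the sequence -/
theorem inf_large {M : Set ℕ} (hM : M.Infinite) {Q : ℕ → ℝ}
    (hQ : Filter.Tendsto Q Filter.atTop Filter.atTop) (b : ℝ) :
    {j | j ∈ M ∧ b ≤ Q j}.Infinite := by
  obtain ⟨N, hN⟩ := Filter.eventually_atTop.mp (hQ.eventually_ge_atTop b)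
  have h1 : (M \ Set.Iio N).Infinite := hM.diff (Set.finite_Iio N)
  refine h1.mono fun j hj => ⟨hj.1, hN j ?_⟩
  have h2 := hj.2
  simp only [Set.mem_Iio, not_lt] at h2
  exact h2

/-- pigeonhole -/
theorem inf_pigeon {n : ℕ} {M : Set ℕ} (hM : M.Infinite) (P : ℕ → Fin n → Prop)
    (h : ∀ j ∈ M, ∃ k, P j k) : ∃ k, {j | j ∈ M ∧ P j k}.Infinite := by
  by_contra hcon
  push Not at hcon
  have h1 : (⋃ k, {j | j ∈ M ∧ P j k}).Finite :=
    Set.finite_iUnion fun k => hcon k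
  refine hM (h1.subset fun j hj => ?_)
  obtain ⟨k, hk⟩ := h j hj
  exact Set.mem_iUnion.mpr ⟨k, hj, hk⟩

theorem PAR (hBAS : ST_BAS) (hVOL : ST_VOL) (hCOEF : ST_COEF) (hGAPX : ST_GAPX)
    (hPARH : ST_PARH) (hPLK : ST_PLK) (hTHG : ST_THG) (hCB : ST_CB) : ST_PAR := by
  intro n S A c M Q x hn hS hA hc hsum hM hQ hx
  obtain ⟨C, hC1, hBas⟩ := hBAS n S A 1 hS hA le_rfl
  obtain ⟨C2, hC2, hVol⟩ := hVOL n S A C hS hA hC1
  have hC3 : 1 ≤ max (n * C) C2 := le_max_of_le_right hC2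
  have he : 0 < -∑ v ∈ plc S, ∑ i, c v i := by linarith
  obtain ⟨η, Q0, hη, hgap⟩ := hGAPX n (max (n * C) C2) (-∑ v ∈ plc S, ∑ i, c v i) hn hC3 he
  -- first restriction
  have hM1 : {j | j ∈ M ∧ max 1 Q0 ≤ Q j}.Infinite := inf_large hM hQ _
  set M1 : Set ℕ := {j | j ∈ M ∧ max 1 Q0 ≤ Q j} with hM1d
  have hQ1 : ∀ j ∈ M1, 1 ≤ Q j := fun j hj => (le_max_left _ _).trans hj.2
  have hQ0 : ∀ j ∈ M1, Q0 ≤ Q j := fun j hj => (le_max_right _ _).trans hj.2
  have hspos : ∀ j ∈ M1, ∀ v ∈ plc S, ∀ i, 0 < Q j ^ c v i := fun j hj v _ i =>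
    Real.rpow_pos_of_pos (by linarith [hQ1 j hj]) _
  have hs1 : ∀ j ∈ M1, ∀ p ∈ S, ∀ i, Q j ^ c (some p) i ≤ 1 := fun j hj p hp i =>
    Real.rpow_le_one_of_one_le_of_nonpos (hQ1 j hj) (hc p hp i)
  have hex : ∀ j, ∃ (B : Matrix (Fin n) (Fin n) ℤ) (lam : Fin n → ℝ), j ∈ M1 →
      Bas n S A (fun v i => Q j ^ c v i) C B lam := by
    intro j
    by_cases hj : j ∈ M1
    · obtain ⟨B, lam, hB⟩ := hBas (fun v i => Q j ^ c v i) (hspos j hj) (hs1 j hj)
      exact ⟨B, lam, fun _ => hB⟩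
    · exact ⟨0, 0, fun h => absurd h hj⟩
  choose B lam hB using hex
  have hex2 : ∀ j, ∃ z : Fin n → ℤ, j ∈ M1 → x j = (B j).mulVec z := by
    intro j
    by_cases hj : j ∈ M1
    · obtain ⟨z, hz⟩ := (hB j hj).mem (x j) (fun p hp i =>
        (hx j hj.1).2 (some p) (by simpa [plc] using hp) i)
      exact ⟨z, fun _ => hz⟩
    · exact ⟨0, fun h => absurd h hj⟩
  choose z hz using hex2
  have hz0 : ∀ j ∈ M1, ∀ k, z j k ≠ 0 → lam j k ≤ max (n * C) C2 := by
    intro j hj k hk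
    have h1 := hCOEF n S A (fun v i => Q j ^ c v i) C (B j) (lam j) hS hA (hspos j hj) (hB j hj)
      (z j) 1 (fun i => by
        rw [one_mul, ← hz j hj]
        exact (hx j hj.1).2 none (by simp [plc]) i) k
    have h2 : (1 : ℝ) ≤ |(z j k : ℝ)| := by
      exact_mod_cast Int.one_le_abs hk
    have h3 := (hB j hj).pos k
    calc lam j k = 1 * lam j k := (one_mul _).symm
      _ ≤ |(z j k : ℝ)| * lam j k := mul_le_mul_of_nonneg_right h2 h3.le
      _ ≤ n * C * 1 := h1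
      _ = n * C := mul_one _
      _ ≤ _ := le_max_left _ _
  -- the gap
  have hk : ∀ j ∈ M1, ∃ k' : Fin n, ∃ k : Fin n, (k : ℕ) + 1 = k' ∧
      lam j k ≤ Q j ^ (-η) * lam j k' ∧ ∀ l, k' ≤ l → z j l = 0 := by
    intro j hj
    have hxne := (hx j hj.1).1
    have hzne : ∃ k, z j k ≠ 0 := by
      by_contra hcon
      push Not at hcon
      apply hxne
      rw [hz j hj, show z j = 0 from funext hcon, Matrix.mulVec_zero]
    obtain ⟨k0, hk0⟩ := hzne
    have hQp : 0 < Q j := by linarith [hQ1 j hj]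
    obtain ⟨k, k', h1, h2, h3⟩ := hgap (Q j) (lam j) (hQ0 j hj) (hB j hj).pos (hB j hj).mono
      ⟨k0, hz0 j hj k0 hk0⟩ (by
        have h1 := (hVol (fun v i => Q j ^ c v i) (B j) (lam j) (hspos j hj) (hB j hj)).1
        have h2 : (∏ v ∈ plc S, ∏ i, Q j ^ c v i) = Q j ^ (∑ v ∈ plc S, ∑ i, c v i) := by
          rw [Real.rpow_sum_of_pos hQp]
          refine Finset.prod_congr rfl fun v _ => ?_
          rw [Real.rpow_sum_of_pos hQp]
        rw [h2] at h1
        have h3 : 0 < Q j ^ (∑ v ∈ plc S, ∑ i, c v i) := Real.rpow_pos_of_pos hQp _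
        have h4 : 0 < ∏ k, lam j k := Finset.prod_pos fun k _ => (hB j hj).pos k
        rw [Real.rpow_neg hQp.le]
        have h5 : 1 ≤ C2 * (Q j ^ (∑ v ∈ plc S, ∑ i, c v i) * ∏ k, lam j k) := by
          rwa [div_le_iff₀' (by linarith)] at h1
        rw [inv_le_iff_one_le_mul₀ h3]
        calc (1 : ℝ) ≤ C2 * (Q j ^ (∑ v ∈ plc S, ∑ i, c v i) * ∏ k, lam j k) := h5
          _ ≤ max (n * C) C2 * (Q j ^ (∑ v ∈ plc S, ∑ i, c v i) * ∏ k, lam j k) :=
            mul_le_mul_of_nonneg_right (le_max_right _ _) (by positivity)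
          _ = _ := by ring)
    refine ⟨k', k, h1, h2, fun l hl => ?_⟩
    by_contra hne
    have h4 := hz0 j hj l hne
    have h5 := (hB j hj).mono hl
    linarith
  obtain ⟨q, hM2⟩ := inf_pigeon hM1 _ hk
  set M2 : Set ℕ := {j | j ∈ M1 ∧ ∃ k : Fin n, (k : ℕ) + 1 = q ∧
      lam j k ≤ Q j ^ (-η) * lam j q ∧ ∀ l, q ≤ l → z j l = 0} with hM2d
  have hq1 : 1 ≤ (q : ℕ) := by
    obtain ⟨j, hj⟩ := hM2.nonempty
    obtain ⟨-, k, hk, -⟩ := hj
    omega
  obtain ⟨C4, hC4, hP⟩ := hPARH n q S A C hS hA hC1 hq1 q.2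
  have htopc : (univ.filter (fun l : Fin n => (q : ℕ) ≤ (l : ℕ))).card = n - q := by
    have h1 : univ.filter (fun l : Fin n => (q : ℕ) ≤ (l : ℕ)) = Finset.Ici q := by
      ext l
      rw [Finset.mem_filter, Finset.mem_Ici, Fin.le_def]
      exact ⟨fun h => h.2, fun h => ⟨Finset.mem_univ _, h⟩⟩
    rw [h1, Fin.card_Ici]
  set top : {I : Finset (Fin n) // I.card = n - (q : ℕ)} :=
    ⟨univ.filter (fun l : Fin n => (q : ℕ) ≤ (l : ℕ)), htopc⟩ with htop
  have hex3 : ∀ j, ∃ (h : Fin (Fintype.card {I : Finset (Fin n) // I.card = n - (q : ℕ)}) → ℤ)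
      (w : ℚ), j ∈ M2 → w ≠ 0 ∧
      (∀ I, cmp (n - q) ((mQ (B j))⁻¹)ᵀ I top = w * h (enu n (n - q) I)) ∧
      GHyp (Fintype.card {I : Finset (Fin n) // I.card = n - (q : ℕ)}) S
        (fun v => cmpF (n - q) (A v))
        (fun v I => ∏ i ∈ ((enu n (n - q)).symm I).1, Q j ^ c v i)
        (C4 * (lam j ⟨q - 1, by omega⟩ *
          ∏ l ∈ univ.filter (fun l : Fin n => (q : ℕ) < (l : ℕ)), lam j l))
        ((∏ l ∈ univ.filter (fun l : Fin n => (q : ℕ) ≤ (l : ℕ)), lam j l) / C4) h := by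
    intro j
    by_cases hj : j ∈ M2
    · obtain ⟨h, w, H⟩ := hP (fun v i => Q j ^ c v i) (B j) (lam j) top (hspos j hj.1)
        (hB j hj.1) rfl
      exact ⟨h, w, fun _ => H⟩
    · exact ⟨0, 0, fun h => absurd h hj⟩
  choose h w hh using hex3
  -- second restriction
  have hM3 : {j | j ∈ M2 ∧ (C4 ^ 2) ^ (2 / η) ≤ Q j}.Infinite := inf_large hM2 hQ _
  set M3 : Set ℕ := {j | j ∈ M2 ∧ (C4 ^ 2) ^ (2 / η) ≤ Q j} with hM3d
  have hQ4 : ∀ j ∈ M3, C4 ^ 2 ≤ Q j ^ (η / 2) := by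
    intro j hj
    have h1 : (0 : ℝ) ≤ C4 ^ 2 := by positivity
    calc C4 ^ 2 = ((C4 ^ 2) ^ (2 / η)) ^ (η / 2) := by
          rw [← Real.rpow_mul h1, div_mul_div_cancel₀' (by norm_num : (2 : ℝ) ≠ 0),
            div_self hη.ne', Real.rpow_one]
      _ ≤ Q j ^ (η / 2) := Real.rpow_le_rpow (by positivity) hj.2 (by positivity)
  set a : ℝ := (∑ v ∈ plc S, ∑ i, |c v i|) + 1 with ha
  have hsabs : ∀ v ∈ plc S, ∀ I : Finset (Fin n), |∑ i ∈ I, c v i| ≤ a := by
    intro v hv I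
    calc |∑ i ∈ I, c v i| ≤ ∑ i ∈ I, |c v i| := Finset.abs_sum_le_sum_abs _ _
      _ ≤ ∑ i, |c v i| := Finset.sum_le_sum_of_subset_of_nonneg (Finset.subset_univ _)
          fun i _ _ => abs_nonneg _
      _ ≤ ∑ v ∈ plc S, ∑ i, |c v i| := Finset.single_le_sum
          (f := fun v => ∑ i, |c v i|) (fun v _ => Finset.sum_nonneg fun i _ => abs_nonneg _) hv
      _ ≤ a := by rw [ha]; linarith
  have hapos : 0 < a := by
    have : 0 ≤ ∑ v ∈ plc S, ∑ i, |c v i| :=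
      Finset.sum_nonneg fun v _ => Finset.sum_nonneg fun i _ => abs_nonneg _
    rw [ha]; linarith
  have hprodQ : ∀ j ∈ M1, ∀ v (I : Finset (Fin n)),
      ∏ i ∈ I, Q j ^ c v i = Q j ^ (∑ i ∈ I, c v i) := by
    intro j hj v I
    rw [Real.rpow_sum_of_pos (by linarith [hQ1 j hj])]
  have hGS : GSeq (Fintype.card {I : Finset (Fin n) // I.card = n - (q : ℕ)}) S
      (fun v => cmpF (n - q) (A v)) 1 a (η / 2) M3 Q
      (fun j v I => ∏ i ∈ ((enu n (n - q)).symm I).1, Q j ^ c v i)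
      (fun j => C4 * (lam j ⟨q - 1, by omega⟩ *
          ∏ l ∈ univ.filter (fun l : Fin n => (q : ℕ) < (l : ℕ)), lam j l))
      (fun j => (∏ l ∈ univ.filter (fun l : Fin n => (q : ℕ) ≤ (l : ℕ)), lam j l) / C4) h := by
    refine ⟨hM3, hQ, fun j hj => (hh j hj.1).2.2, ?_, ?_, ?_, ?_⟩
    · intro j hj p hp I
      exact Finset.prod_le_one (fun i _ => (hspos j hj.1.1 (some p) (by simpa [plc] using hp) i).le)
        fun i _ => hs1 j hj.1.1 p hp i
    · intro j hj v hv I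
      rw [hprodQ j hj.1.1]
      refine Real.rpow_le_rpow_of_exponent_le (hQ1 j hj.1.1) ?_
      have := (abs_le.mp (hsabs v hv ((enu n (n - q)).symm I).1)).1
      linarith
    · intro j hj v hv I
      rw [hprodQ j hj.1.1]
      exact Real.rpow_le_rpow_of_exponent_le (hQ1 j hj.1.1)
        (abs_le.mp (hsabs v hv ((enu n (n - q)).symm I).1)).2
    · intro j hj
      obtain ⟨k, hk1, hk2, -⟩ := hj.1.2
      have hkq : k = ⟨q - 1, by omega⟩ := by
        apply Fin.ext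
        show (k : ℕ) = q - 1
        omega
      have hQp : 0 < Q j := by linarith [hQ1 j hj.1.1]
      have hins : univ.filter (fun l : Fin n => (q : ℕ) ≤ (l : ℕ)) =
          insert q (univ.filter (fun l : Fin n => (q : ℕ) < (l : ℕ))) := by
        ext l
        simp only [mem_filter, mem_univ, true_and, mem_insert, Fin.ext_iff]
        omega
      have hprod : ∏ l ∈ univ.filter (fun l : Fin n => (q : ℕ) ≤ (l : ℕ)), lam j l =
          lam j q * ∏ l ∈ univ.filter (fun l : Fin n => (q : ℕ) < (l : ℕ)), lam j l := by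
        rw [hins, Finset.prod_insert (by simp)]
      rw [hprod, ← hkq]
      set P : ℝ := ∏ l ∈ univ.filter (fun l : Fin n => (q : ℕ) < (l : ℕ)), lam j l with hPd
      have hPpos : 0 < P := Finset.prod_pos fun l _ => (hB j hj.1.1).pos l
      have hlq : 0 < lam j q := (hB j hj.1.1).pos q
      have h4 := hQ4 j hj
      have h5 : 0 < Q j ^ (η / 2) := Real.rpow_pos_of_pos hQp _
      have h6 : Q j ^ (-η) = (Q j ^ (η / 2))⁻¹ * (Q j ^ (η / 2))⁻¹ := by
        rw [← Real.rpow_neg hQp.le, ← Real.rpow_add hQp]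
        congr 1
        ring
      have h7 : Q j ^ (-(η / 2)) = (Q j ^ (η / 2))⁻¹ := Real.rpow_neg hQp.le _
      rw [h7]
      have h8 : C4 * (lam j k * P) ≤ C4 * ((Q j ^ (-η) * lam j q) * P) :=
        mul_le_mul_of_nonneg_left (mul_le_mul_of_nonneg_right hk2 hPpos.le) (by linarith)
      refine h8.trans ?_
      rw [h6]
      have h9 : C4 * (Q j ^ (η / 2))⁻¹ ≤ 1 / C4 := by
        rw [← div_eq_mul_inv, div_le_div_iff₀ h5 (by linarith)]
        nlinarith
      calc C4 * ((Q j ^ (η / 2))⁻¹ * (Q j ^ (η / 2))⁻¹ * lam j q * P)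
          = (C4 * (Q j ^ (η / 2))⁻¹) * ((Q j ^ (η / 2))⁻¹ * (lam j q * P)) := by ring
        _ ≤ (1 / C4) * ((Q j ^ (η / 2))⁻¹ * (lam j q * P)) :=
          mul_le_mul_of_nonneg_right h9 (by positivity)
        _ = (Q j ^ (η / 2))⁻¹ * (lam j q * P / C4) := by ring
  obtain ⟨h0, hh0⟩ := hTHG _ S (fun v => cmpF (n - q) (A v)) 1 a (η / 2) M3 Q _ _ _ h
    (Fintype.card_pos_iff.mpr ⟨top⟩) hS (fun v hv => by
      show ((cmp (n - q) (A v)).submatrix _ _).det ≠ 0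
      rw [Matrix.det_submatrix_equiv_self]
      exact ((hCB n (n - q)).2.2.2.1 (A v) (hA v hv)).1) le_rfl hapos (by positivity) hGS
  -- the Pluecker vector
  have hh0ne : (fun I => (h0 (enu n (n - q) I) : ℚ)) ≠ 0 := by
    intro hz0
    obtain ⟨j, hj, hjh⟩ := hh0.nonempty
    have h1 := (hh j hj.1).2.2.prim
    rw [hjh] at h1
    have h2 : ∀ I, h0 I = 0 := by
      intro I
      have h3 := congrFun hz0 ((enu n (n - q)).symm I)
      simp only [Equiv.apply_symm_apply, Pi.zero_apply] at h3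
      exact_mod_cast h3
    have h4 := h1 2 fun I => by rw [h2 I]; exact dvd_zero _
    rw [Int.isUnit_iff] at h4
    omega
  obtain ⟨a', ha', H⟩ := hPLK n (n - q) (fun I => (h0 (enu n (n - q) I) : ℚ))
    (by have := q.2; omega) hh0ne
  refine ⟨a', ha', hh0.mono fun j hj => ?_⟩
  obtain ⟨hj3, hjh⟩ := hj
  refine ⟨hj3.1.1.1, ?_⟩
  obtain ⟨hw, hcol, -⟩ := hh j hj3.1
  refine H (fun i l => ((mQ (B j))⁻¹)ᵀ i (emb top l)) (w j) hw (fun I => ?_)
    (fun i => (x j i : ℚ)) (fun l => ?_)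
  · rw [← hjh]
    exact hcol I
  · have h1 := (hB j hj3.1.1).det_ne
    have h2 : IsUnit (mQ (B j)).det := by
      have h3 : (mQ (B j)).det = (((B j).det : ℤ) : ℚ) :=
        (RingHom.map_det (Int.castRingHom ℚ) (B j)).symm
      rw [h3, isUnit_iff_ne_zero]
      exact_mod_cast h1
    have h3 : (fun i => (x j i : ℚ)) = (mQ (B j)).mulVec (fun l => (z j l : ℚ)) := by
      funext i
      have h4 : x j i = ((B j).mulVec (z j)) i := congrFun (hz j hj3.1.1) i
      rw [h4]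
      show (((∑ l, B j i l * z j l : ℤ)) : ℚ) = ∑ l, ((B j i l : ℤ) : ℚ) * ((z j l : ℤ) : ℚ)
      push_cast
      rfl
    have h4 : ((mQ (B j))⁻¹).mulVec (fun i => (x j i : ℚ)) = fun l => (z j l : ℚ) := by
      rw [h3, Matrix.mulVec_mulVec, Matrix.nonsing_inv_mul _ h2, Matrix.one_mulVec]
    have h5 := congrFun h4 (emb top l)
    have h6 : z j (emb top l) = 0 := by
      obtain ⟨-, -, -, hz'⟩ := hj3.1.2
      refine hz' _ ?_
      have h7 : emb top l ∈ top.1 := Finset.orderEmbOfFin_mem _ _ _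
      have h8 : (q : ℕ) ≤ (emb top l : ℕ) := by
        have := h7
        simp only [htop, mem_filter, mem_univ, true_and] at this
        exact this
      exact Fin.le_def.mpr h8
    rw [h6] at h5
    have h9 : ∑ i, (mQ (B j))⁻¹ (emb top l) i * (x j i : ℚ) = 0 := by
      have : ((mQ (B j))⁻¹).mulVec (fun i => (x j i : ℚ)) (emb top l) = 0 := by
        rw [h5]; simp
      exact this
    exact h9

end Pool.Agent.Helper45.SUB
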